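import Mathlib

/-! Ordered binary structures in a class with amalgamation: windows, amalgams and pumping. -/

namespace Pool.Agent.H.MP_7b05dd_co

@[ext] structure Pc where
  n : ℕ
  E : ℕ → ℕ → Prop
  lt : ∀ {a b}, E a b → a < n ∧ b < n

abbrev Loc : Type := Prop → Prop → Prop → Prop → Prop → Prop → Prop

def K (φ : Loc) (A : ℕ → Prop) (R : ℕ → ℕ → Prop) : Prop :=
  ∀ a, A a → ∀ b, A b → ∀ c, A c → φ (a = b) (R a a) (R a b) (R b a) (R b c) (R a c)

theorem K.pull {φ : Loc} {A A' : ℕ → Prop} {R R' : ℕ → ℕ → Prop} (H : K φ A R) (f : ℕ → ℕ)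
    (h1 : ∀ a, A' a → A (f a)) (h2 : ∀ a b, A' a → A' b → f a = f b → a = b)
    (h3 : ∀ a b, A' a → A' b → (R' a b ↔ R (f a) (f b))) : K φ A' R' := by
  intro a ha b hb c hc
  rw [h3 a a ha ha, h3 a b ha hb, h3 b a hb ha, h3 b c hb hc, h3 a c ha hc,
    show (a = b) = (f a = f b) from propext ⟨congrArg f, h2 a b ha hb⟩]
  exact H _ (h1 a ha) _ (h1 b hb) _ (h1 c hc)

def Amal (φ : Loc) : Prop := ∀ (A A' : ℕ → Prop) (R R' : ℕ → ℕ → Prop), K φ A R → K φ A' R' →
  (∀ a b, A a → A' a → A b → A' b → (R a b ↔ R' a b)) →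
  ∃ S, K φ (fun a => A a ∨ A' a) S ∧ (∀ a b, A a → A b → (S a b ↔ R a b)) ∧
    ∀ a b, A' a → A' b → (S a b ↔ R' a b)

def occ (x z : Pc) (i : ℕ) : Prop :=
  i + x.n ≤ z.n ∧ ∀ a < x.n, ∀ b < x.n, (x.E a b ↔ z.E (i + a) (i + b))

def ok (φ : Loc) (B : Set Pc) (x : Pc) : Prop :=
  0 < x.n ∧ K φ (· < x.n) x.E ∧ ∀ b ∈ B, ∀ i, ¬occ b x i

def sub (z : Pc) (s k : ℕ) : Pc :=
  ⟨k, fun a b => a < k ∧ b < k ∧ z.E (s + a) (s + b), fun h => ⟨h.1, h.2.1⟩⟩

def W (m : ℕ) (x : Pc) (s : ℕ) (y : Pc) (t : ℕ) : Prop :=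
  ∀ a < m, ∀ b < m, (x.E (s + a) (s + b) ↔ y.E (t + a) (t + b))

variable {φ : Loc} {B : Set Pc} {x y z w u v t : Pc} {i j k m s s' d : ℕ}

@[simp] theorem sub_n : (sub z s k).n = k := rfl

theorem occ_refl (x : Pc) : occ x x 0 := ⟨by simp, by simp⟩

theorem occ.trans (h : occ x y i) (h' : occ y z j) : occ x z (j + i) :=
  ⟨by have := h.1; have := h'.1; omega, fun a ha b hb => by
    have := h.1
    rw [h.2 a ha b hb, h'.2 _ (by omega) _ (by omega), add_assoc, add_assoc]⟩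

theorem occ_sub (h : s + k ≤ z.n) : occ (sub z s k) z s :=
  ⟨h, fun _ ha _ hb => ⟨fun h => h.2.2, fun h => ⟨ha, hb, h⟩⟩⟩

theorem occ.inside (h : occ y w (i + d)) (h' : occ x w i) (e : d + y.n ≤ x.n) : occ y x d :=
  ⟨e, fun a ha b hb => by
    rw [h.2 a ha b hb, h'.2 _ (by omega) _ (by omega), add_assoc, add_assoc]⟩

theorem pc_ext (e : x.n = y.n) (h : ∀ a < x.n, ∀ b < x.n, (x.E a b ↔ y.E a b)) : x = y :=
  Pc.ext e (funext fun a => funext fun b => propext
    ⟨fun g => (h a (x.lt g).1 b (x.lt g).2).1 g,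
      fun g => (h a (e ▸ (y.lt g).1) b (e ▸ (y.lt g).2)).2 g⟩)

theorem occ.eq (h : occ x w i) (h' : occ y w i) (e : x.n = y.n) : x = y :=
  pc_ext e fun a ha b hb => (h.2 a ha b hb).trans (h'.2 a (e ▸ ha) b (e ▸ hb)).symm

theorem ok.of_occ (H : ok φ B z) (h : occ x z i) (hx : 0 < x.n) : ok φ B x :=
  ⟨hx, H.2.1.pull (i + ·) (fun a ha => by have := h.1; omega) (fun _ _ _ _ e => by omega)
    fun a b ha hb => h.2 a ha b hb, fun b hb _ g => H.2.2 b hb _ (g.trans h)⟩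

theorem W.refl : W m x i x i := fun _ _ _ _ => Iff.rfl

theorem W.symm (h : W m x i y j) : W m y j x i := fun a ha b hb => (h a ha b hb).symm

theorem W.trans (h : W m x i y j) (h' : W m y j z k) : W m x i z k :=
  fun a ha b hb => (h a ha b hb).trans (h' a ha b hb)

theorem W.part (h : W m x i y j) (e : d + k ≤ m) : W k x (i + d) y (j + d) := fun a ha b hb => by
  simpa only [add_assoc] using h (d + a) (by omega) (d + b) (by omega)

theorem occ.W (h : occ x z i) (e : d + k ≤ x.n) : W k x d z (i + d) := fun a ha b hb => by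
  simpa only [add_assoc] using h.2 (d + a) (by omega) (d + b) (by omega)

theorem W.of_occ (h : occ t x i) (h' : occ t y j) : W t.n x i y j :=
  fun a ha b hb => (h.2 a ha b hb).symm.trans (h'.2 a ha b hb)

theorem occ.of_W (h : occ t x i) (h' : MP_7b05dd_co.W t.n x i y j) (e : j + t.n ≤ y.n) :
    occ t y j := ⟨e, fun a ha b hb => (h.2 a ha b hb).trans (h' a ha b hb)⟩

theorem ga (hφ : Amal φ) (hB : ∀ b ∈ B, b.n ≤ m) (hu : ok φ B u) (hv : ok φ B v)
    (e1 : u.n = s + m) (e2 : m ≤ v.n) {A A' : ℕ → Prop} {R R' : ℕ → ℕ → Prop} (k1 : K φ A R)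
    (k2 : K φ A' R') (ag : ∀ a b, A a → A' a → A b → A' b → (R a b ↔ R' a b))
    (c1 : ∀ a < s + m, A a) (c2 : ∀ a < v.n, A' (s + a))
    (r1 : ∀ a < s + m, ∀ b < s + m, (u.E a b ↔ R a b))
    (r2 : ∀ a < v.n, ∀ b < v.n, (v.E a b ↔ R' (s + a) (s + b))) :
    ∃ w, ok φ B w ∧ w.n = s + v.n ∧ occ u w 0 ∧ occ v w s ∧
      (∀ a < w.n, ∀ b < w.n, A a → A b → (w.E a b ↔ R a b)) ∧
      ∀ a < w.n, ∀ b < w.n, A' a → A' b → (w.E a b ↔ R' a b) := by
  obtain ⟨S, s1, s2, s3⟩ := hφ A A' R R' k1 k2 ag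
  let w : Pc := ⟨s + v.n, fun a b => a < s + v.n ∧ b < s + v.n ∧ S a b, fun h => ⟨h.1, h.2.1⟩⟩
  have hw : ∀ a < s + v.n, ∀ b < s + v.n, (w.E a b ↔ S a b) := fun a ha b hb =>
    ⟨fun h => h.2.2, fun h => ⟨ha, hb, h⟩⟩
  have wn : w.n = s + v.n := rfl
  have o1 : occ u w 0 := ⟨by omega, fun a ha b hb => by
    rw [zero_add, zero_add, hw a (by omega) b (by omega), s2 a b (c1 a (by omega)) (c1 b (by omega)),
      r1 a (by omega) b (by omega)]⟩
  have o2 : occ v w s := ⟨by omega, fun a ha b hb => by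
    rw [hw _ (by omega) _ (by omega), s3 _ _ (c2 a ha) (c2 b hb), r2 a ha b hb]⟩
  refine ⟨w, ⟨by have := hv.1; omega, s1.pull id (fun a ha => ?_) (fun _ _ _ _ e => e)
    (fun a b ha hb => hw a ha b hb), fun b hb i g => ?_⟩, rfl, o1, o2,
    fun a ha b hb p q => (hw a ha b hb).trans (s2 a b p q),
    fun a ha b hb p q => (hw a ha b hb).trans (s3 a b p q)⟩
  · by_cases k : a < s + m
    · exact Or.inl (c1 a k)
    · obtain ⟨a, rfl⟩ := Nat.exists_eq_add_of_le (show s ≤ a by omega)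
      exact Or.inr (c2 a (by omega))
  · have := hB b hb
    rcases le_total i s with e | e
    · exact hu.2.2 b hb i (occ.inside (i := 0) (by simpa using g) o1 (by omega))
    · obtain ⟨d, rfl⟩ := Nat.exists_eq_add_of_le e
      exact hv.2.2 b hb d (g.inside o2 (by have := g.1; omega))

theorem am2 (hφ : Amal φ) (hB : ∀ b ∈ B, b.n ≤ m) (hu : ok φ B u) (hv : ok φ B v)
    (e1 : u.n = s + m) (e2 : m ≤ v.n) (h : W m u s v 0) :
    ∃ w, ok φ B w ∧ w.n = s + v.n ∧ occ u w 0 ∧ occ v w s := by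
  obtain ⟨w, a, b, c, d, -⟩ := ga hφ hB hu hv e1 e2 (A' := fun a => s ≤ a ∧ a < s + v.n)
    (R' := fun a b => v.E (a - s) (b - s)) hu.2.1
    (hv.2.1.pull (· - s) (fun a ha => by omega) (fun a b _ _ e => by omega) fun _ _ _ _ => Iff.rfl)
    (fun a b p q p' q' => by
      have := h (a - s) (by omega) (b - s) (by omega)
      rwa [Nat.add_sub_cancel' q.1, Nat.add_sub_cancel' q'.1, zero_add, zero_add] at this)
    (fun a ha => by omega) (fun a ha => by omega) (fun _ _ _ _ => Iff.rfl) (by simp)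
  exact ⟨w, a, b, c, d⟩

theorem repl_left {x' : Pc} (hφ : Amal φ) (hm : 0 < m) (hB : ∀ b ∈ B, b.n ≤ m) (hx : ok φ B x)
    (hw : ok φ B w) (n1 : x.n = s + m) (n2 : x'.n = s' + m) (hE : W m x s x' s')
    (ho : occ x' w i) : ∃ w', ok φ B w' ∧ occ x w' 0 ∧ w'.n + i + s' = w.n + s ∧
      ∀ y d, occ y w (i + s' + d) → occ y w' (s + d) := by
  have h1 := ho.1
  have hv : occ (sub w (i + s') (w.n - (i + s'))) w (i + s') := occ_sub (by omega)
  obtain ⟨w', a, b, c, d⟩ := am2 hφ hB hx (hw.of_occ hv (by simp; omega)) n1 (by simp; omega)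
    ((hE.trans (ho.W (by omega))).trans (hv.W (d := 0) (by simp; omega)).symm)
  refine ⟨w', a, c, by simp at b; omega, fun y e g => ?_⟩
  exact (g.inside hv (by have := g.1; simp; omega)).trans d

theorem repl_right {y' : Pc} (hφ : Amal φ) (hm : 0 < m) (hB : ∀ b ∈ B, b.n ≤ m) (hy : ok φ B y)
    (hw : ok φ B w) (n1 : m ≤ y.n) (n2 : m ≤ y'.n) (hE : W m y 0 y' 0) (ho : occ y' w j) :
    ∃ w', ok φ B w' ∧ occ y w' j ∧ ∀ x i, occ x w i → i + x.n ≤ j + m → occ x w' i := by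
  have h1 := ho.1
  have hu : occ (sub w 0 (j + m)) w 0 := occ_sub (by omega)
  obtain ⟨w', a, b, c, d⟩ := am2 (s := j) hφ hB (hw.of_occ hu (by simp; omega)) hy rfl n1
    ((hu.W (by simp)).trans (by simpa using (hE.trans (ho.W (by omega))).symm))
  refine ⟨w', a, d, fun x i g e => ?_⟩
  simpa using (occ.inside (i := 0) (by simpa using g) hu e).trans c

theorem pump {p q : ℕ} (hφ : Amal φ) (hm : 0 < m) (hB : ∀ b ∈ B, b.n ≤ m) (hz : ok φ B z)
    (h : W m z p z q) (e : p + m ≤ z.n) (e' : q + m ≤ z.n) : ∃ z', ok φ B z' ∧ z'.n + q = z.n + p ∧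
      (∀ y j, occ y z j → j + y.n ≤ p + m → occ y z' j) ∧
      ∀ y d, occ y z (q + d) → occ y z' (p + d) := by
  have h1 : occ (sub z 0 (p + m)) z 0 := occ_sub (by omega)
  have h2 : occ (sub z 0 (q + m)) z 0 := occ_sub (by omega)
  obtain ⟨w, a, b, c, d⟩ := repl_left (s := p) (s' := q) hφ hm hB
    (hz.of_occ h1 (by simp; omega)) hz rfl rfl ((h1.W (by simp)).trans
      (W.trans (by simpa using h) (h2.W (d := q) (by simp)).symm)) h2
  refine ⟨w, a, by omega, fun y j g k => ?_, fun y d' g => d y d' (by simpa using g)⟩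
  simpa using (occ.inside (i := 0) (by simpa using g) h1 k).trans b

def tr (m c d p i : ℕ) : ℕ := if i < m then p + i else if i = m then c else d

def St (m : ℕ) (z : Pc) (c d p q : ℕ) : Prop :=
  ∀ i < m + 2, ∀ j < m + 2, (z.E (tr m c d p i) (tr m c d p j) ↔ z.E (tr m c d q i) (tr m c d q j))

theorem St.W {c p q} (h : St m z c d p q) : W m z p z q := fun a ha b hb => by
  simpa [tr, ha, hb] using h a (by omega) b (by omega)

theorem St.symm {c p q} (h : St m z c d p q) : St m z c d q p :=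
  fun a ha b hb => (h a ha b hb).symm

def C (m : ℕ) : ℕ := 4 ^ ((m + 2) * (m + 2))

theorem pig (m : ℕ) (z z' : Pc) (c d s : ℕ) :
    ∃ p q, s ≤ p ∧ p < q ∧ q ≤ s + C m ∧ St m z c d p q ∧ St m z' c d p q := by
  classical
  let σ : Pc → ℕ → Fin (m + 2) → Fin (m + 2) → Prop := fun z p a b =>
    z.E (tr m c d p a) (tr m c d p b)
  have k : ∀ z p q, σ z p = σ z q → St m z c d p q := fun z p q e a ha b hb =>
    Iff.of_eq (congrFun (congrFun e ⟨a, ha⟩) ⟨b, hb⟩)
  obtain ⟨p, q, h1, h2⟩ := Fintype.exists_ne_map_eq_of_card_lt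
    (fun p : Fin (C m + 1) => (σ z (s + p), σ z' (s + p))) (by
      simp only [Fintype.card_prod, Fintype.card_fun, Fintype.card_prop, Fintype.card_fin,
        ← pow_mul, ← mul_pow]
      exact Nat.lt_succ_self _)
  rw [Prod.mk.injEq] at h2
  have := p.2
  have := q.2
  rcases lt_or_gt_of_ne (Fin.val_ne_of_ne h1) with h | h
  · exact ⟨s + p, s + q, by omega, by omega, by omega, k _ _ _ h2.1, k _ _ _ h2.2⟩
  · exact ⟨s + q, s + p, by omega, by omega, by omega, k _ _ _ h2.1.symm, k _ _ _ h2.2.symm⟩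

def jp (r p q a : ℕ) : ℕ := if a < r then a else a + q - p

theorem tpump {c p q : ℕ} (hφ : Amal φ) (hm : 0 < m) (hB : ∀ b ∈ B, b.n ≤ m) (hz : ok φ B z)
    (h : St m z c d p q) (c1 : c < p) (c2 : c < q) (d1 : p + m ≤ d) (d2 : q + m ≤ d)
    (d3 : d < z.n) : ∃ z', ok φ B z' ∧ z'.n + q = z.n + p ∧
      (∀ y j, occ y z j → j + y.n ≤ p + m → occ y z' j) ∧
      (∀ y e, occ y z (q + e) → occ y z' (p + e)) ∧
      (∀ a b, (a < p + m ∨ a + q = d + p) → (b < p + m ∨ b + q = d + p) →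
        (z'.E a b ↔ z.E (jp (p + m) p q a) (jp (p + m) p q b))) ∧
      ∀ a < z'.n, ∀ b < z'.n, (a = c ∨ p ≤ a) → (b = c ∨ p ≤ b) →
        (z'.E a b ↔ z.E (jp p p q a) (jp p p q b)) := by
  have h1 : occ (sub z 0 (p + m)) z 0 := occ_sub (by omega)
  have h2 : occ (sub z q (z.n - q)) z q := occ_sub (by omega)
  have key : ∀ a, (a < p + m ∨ a + q = d + p) → (a = c ∨ p ≤ a) → ∃ i < m + 2,
      jp (p + m) p q a = tr m c d p i ∧ jp p p q a = tr m c d q i := by
    intro a g g'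
    by_cases k : a < p
    · exact ⟨m, by omega, by unfold jp tr; split_ifs <;> omega, by unfold jp tr; split_ifs <;> omega⟩
    by_cases k' : a < p + m
    · exact ⟨a - p, by omega, by unfold jp tr; split_ifs <;> omega,
        by unfold jp tr; split_ifs <;> omega⟩
    · exact ⟨m + 1, by omega, by unfold jp tr; split_ifs <;> omega,
        by unfold jp tr; split_ifs <;> omega⟩
  obtain ⟨w, a, b, o1, o2, r1, r2⟩ := ga (s := p) hφ hB (hz.of_occ h1 (by simp; omega))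
    (hz.of_occ h2 (by simp; omega)) rfl (by simp; omega)
    (A := fun a => a < p + m ∨ a + q = d + p) (A' := fun a => (a = c ∨ p ≤ a) ∧ a + q < z.n + p)
    (R := fun a b => z.E (jp (p + m) p q a) (jp (p + m) p q b))
    (R' := fun a b => z.E (jp p p q a) (jp p p q b))
    (hz.2.1.pull (jp (p + m) p q) (fun a ha => by unfold jp; split_ifs <;> omega)
      (fun a b _ _ => by unfold jp; split_ifs <;> omega) fun _ _ _ _ => Iff.rfl)
    (hz.2.1.pull (jp p p q) (fun a ha => by unfold jp; split_ifs <;> omega)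
      (fun a b _ _ => by unfold jp; split_ifs <;> omega) fun _ _ _ _ => Iff.rfl)
    (fun a b p1 p2 p3 p4 => by
      obtain ⟨i, hi, e1, e2⟩ := key a p1 p2.1
      obtain ⟨j, hj, e3, e4⟩ := key b p3 p4.1
      simp only [e1, e2, e3, e4]
      exact h i hi j hj)
    (fun a ha => Or.inl ha) (fun a ha => by simp at ha; omega)
    (fun a ha b hb => by simp [sub, jp, ha, hb])
    (fun a ha b hb => by
      rw [h2.2 a ha b hb, show jp p p q (p + a) = q + a by unfold jp; split_ifs <;> omega,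
        show jp p p q (p + b) = q + b by unfold jp; split_ifs <;> omega])
  rw [sub_n] at b
  refine ⟨w, a, by omega, fun y j g k => ?_, fun y e g => ?_,
    fun a b p1 p2 => r1 a (by omega) b (by omega) p1 p2,
    fun a ha b hb p1 p2 => r2 a ha b hb ⟨p1, by omega⟩ ⟨p2, by omega⟩⟩
  · simpa using (occ.inside (i := 0) (by simpa using g) h1 k).trans o1
  · exact (g.inside h2 (by have := g.1; simp; omega)).trans o2

end Pool.Agent.H.MP_7b05dd_co
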