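import Pool.Agent.H.MP_7b05dd_co.A
import Pool.Agent.H.MP_4eb715_lc.A

/-! Finite certificates for the joint embedding property. -/

namespace Pool.Agent.H.MP_7b05dd_co

open Pool.Agent.H.MP_4eb715_lc

abbrev Cd : Type := ℕ × List (ℕ × ℕ)

def P (c : Cd) : Pc :=
  ⟨c.1, fun a b => a < c.1 ∧ b < c.1 ∧ (a, b) ∈ c.2, fun h => ⟨h.1, h.2.1⟩⟩

def codes (b : ℕ) : List Cd := (List.range (b + 1)).flatMap fun k =>
  (prod (List.range k) (List.range k)).sublists'.map fun L => (k, L)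

theorem codes_le {b : ℕ} {c : Cd} (h : c ∈ codes b) : (P c).n ≤ b := by
  obtain ⟨k, h1, h2⟩ := List.mem_flatMap.1 h
  obtain ⟨L, -, rfl⟩ := List.mem_map.1 h2
  exact Nat.lt_succ_iff.1 (List.mem_range.1 h1)

theorem exists_code {b : ℕ} (x : Pc) (h : x.n ≤ b) : ∃ c ∈ codes b, P c = x := by
  refine ⟨(x.n, flt (prod (List.range x.n) (List.range x.n)) fun z => x.E z.1 z.2),
    List.mem_flatMap.2 ⟨x.n, List.mem_range.2 (by omega), List.mem_map.2 ⟨_, flt_sub _ _, rfl⟩⟩,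
    Pc.ext rfl (funext fun a => funext fun b => propext ?_)⟩
  simp only [P, mem_flt, mem_prod, List.mem_range]
  exact ⟨fun g => g.2.2.2, fun g => ⟨(x.lt g).1, (x.lt g).2, x.lt g, g⟩⟩

theorem all_iff {b : ℕ} {ψ : Pc → Prop} : (∀ x : Pc, x.n ≤ b → ψ x) ↔ ∀ c ∈ codes b, ψ (P c) :=
  ⟨fun h _ hc => h _ (codes_le hc), fun h x hx => by
    obtain ⟨c, h1, rfl⟩ := exists_code x hx
    exact h c h1⟩

theorem ex_iff {b : ℕ} {ψ : Pc → Prop} : (∃ x : Pc, x.n ≤ b ∧ ψ x) ↔ ∃ c ∈ codes b, ψ (P c) :=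
  ⟨fun ⟨x, hx, h⟩ => by
    obtain ⟨c, h1, rfl⟩ := exists_code x hx
    exact ⟨c, h1, h⟩, fun ⟨c, hc, h⟩ => ⟨_, codes_le hc, h⟩⟩

theorem finsup (b : ℕ) {H : Pc → Pc → Prop} {Q : Pc → Pc → Pc → Prop}
    (h : ∀ x y, H x y → ∃ w, Q x y w) :
    ∃ M, ∀ x : Pc, x.n ≤ b → ∀ y : Pc, y.n ≤ b → H x y → ∃ w : Pc, w.n ≤ M ∧ Q x y w := by
  choose! f hf using h
  have hS : {x : Pc | x.n ≤ b}.Finite :=
    ((List.finite_toSet (codes b)).image P).subset fun x hx => exists_code x hx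
  obtain ⟨M, hM⟩ := ((hS.prod hS).image fun z => (f z.1 z.2).n).bddAbove
  exact ⟨M, fun x hx y hy g => ⟨_, hM ⟨(x, y), ⟨hx, hy⟩, rfl⟩, hf x y g⟩⟩

def JW (φ : Loc) (B : Set Pc) (w x y : Pc) (ψ : ℕ → ℕ → Prop) : Prop :=
  ok φ B w ∧ ∃ i ≤ w.n, ∃ j ≤ w.n, occ x w i ∧ occ y w j ∧ ψ i j

variable {φ : Loc} {B : Set Pc} {x y z w t : Pc} {i j k m : ℕ}

structure Sh (φ : Loc) (B : Set Pc) (m : ℕ) (x x' : Pc) : Prop where
  l : ∀ w i, ok φ B w → occ x' w i → ∃ w' i', ok φ B w' ∧ occ x w' i' ∧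
    ∀ y j, occ y w j → i + x'.n ≤ j + m → ∃ j', occ y w' j' ∧ j' + i + x'.n = j + i' + x.n
  r : ∀ w j, ok φ B w → occ x' w j → ∃ w', ok φ B w' ∧ occ x w' j ∧
    ∀ y i, occ y w i → i + y.n ≤ j + m → occ y w' i
  a : ∀ t : Pc, t.n = m → occ t x 0 → occ t x' 0
  b : ∀ (t : Pc) k, t.n = m → occ t x k → k + m = x.n → ∃ k', occ t x' k' ∧ k' + m = x'.n

def N (m : ℕ) : ℕ := 2 * m + C m

theorem shrink1 (hφ : Amal φ) (hm : 0 < m) (hB : ∀ b ∈ B, b.n ≤ m) : ∀ n (x : Pc), x.n = n →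
    ok φ B x → m ≤ n → ∃ x' s s', ok φ B x' ∧ x'.n ≤ N m ∧ x.n = s + m ∧ x'.n = s' + m ∧
      W m x 0 x' 0 ∧ W m x s x' s' := by
  intro n
  induction n using Nat.strong_induction_on with
  | _ n ih =>
    intro x e hx h
    by_cases k : n ≤ N m
    · exact ⟨x, n - m, n - m, hx, by omega, by omega, by omega, .refl, .refl⟩
    rw [N] at k
    obtain ⟨p, q, -, p1, p2, p3, -⟩ := pig m x x 0 0 0
    obtain ⟨y, y1, y2, y3, y4⟩ := pump hφ hm hB hx p3.W (by omega) (by omega)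
    obtain ⟨z, s, s', z1, z3, z4, z5, z6, z7⟩ := ih y.n (by omega) y rfl y1 (by omega)
    obtain ⟨d, hd⟩ : ∃ d, n = q + d + m := ⟨n - q - m, by omega⟩
    have o1 : occ (sub x 0 m) x 0 := occ_sub (by omega)
    have o2 : occ (sub x (q + d) m) x (q + d) := occ_sub (by omega)
    refine ⟨z, q + d, s', z1, z3, by omega, z5,
      (W.of_occ o1 (y3 _ _ o1 (by simp))).trans z6, (W.of_occ o2 (y4 _ _ o2)).trans ?_⟩
    rwa [show p + d = s by omega]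

theorem shrink {B' : Set Pc} (hφ : Amal φ) (hm : 0 < m) (hB : ∀ b ∈ B', b.n ≤ m) (hs : B ⊆ B')
    (hx : ok φ B' x) : ∃ x', ok φ B' x' ∧ x'.n ≤ N m ∧ Sh φ B m x x' := by
  by_cases k : x.n ≤ N m
  · exact ⟨x, hx, k, fun w i a b => ⟨w, i, a, b, fun y j c _ => ⟨j, c, rfl⟩⟩,
      fun w j a b => ⟨w, a, b, fun _ _ c _ => c⟩, fun _ _ => id, fun _ k _ a b => ⟨k, a, b⟩⟩
  obtain ⟨y, s, s', y1, y3, y4, y5, y6, y7⟩ :=
    shrink1 hφ hm hB _ x rfl hx (by unfold N at k; omega)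
  have hx' : ok φ B x := ⟨hx.1, hx.2.1, fun b hb => hx.2.2 b (hs hb)⟩
  have hB' : ∀ b ∈ B, b.n ≤ m := fun b hb => hB b (hs hb)
  refine ⟨y, y1, y3, fun w' i a b => ?_, fun w' j a b => repl_right hφ hm hB' hx' a (by omega)
    (by omega) y6 b, fun t e h => h.of_W (e ▸ y6) (by omega),
    fun t k e h e' => ⟨s', h.of_W ?_ (by omega), by omega⟩⟩
  · obtain ⟨w'', c1, c2, -, c3⟩ := repl_left hφ hm hB' hx' a y4 y5 y7 b
    refine ⟨w'', 0, c1, c2, fun y j g e => ?_⟩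
    obtain ⟨d, rfl⟩ := Nat.exists_eq_add_of_le (show i + s' ≤ j by omega)
    exact ⟨_, c3 y d g, by omega⟩
  · rw [e, show k = s by omega]
    exact y7

theorem JW.mk' {ψ : ℕ → ℕ → Prop} (h : ok φ B w) (a : occ x w i) (b : occ y w j) (c : ψ i j) :
    JW φ B w x y ψ := ⟨h, i, by have := a.1; omega, j, by have := b.1; omega, a, b, c⟩

def J (φ : Loc) (B : Set Pc) (x y : Pc) : Prop := ∃ w i j, ok φ B w ∧ occ x w i ∧ occ y w j

def Atom (φ : Loc) (B : Set Pc) : Prop := ∀ x y, ok φ B x → ok φ B y → J φ B x y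

theorem J.symm (h : J φ B x y) : J φ B y x := by
  obtain ⟨w, i, j, a, b, c⟩ := h
  exact ⟨w, j, i, a, c, b⟩

theorem J_le (hφ : Amal φ) (hm : 0 < m) (hB : ∀ b ∈ B, b.n ≤ m) (hx : 0 < x.n) : ∀ d w i, ok φ B w → occ x w i →
    occ y w (i + d) → ∃ w : Pc, w.n ≤ x.n + y.n + N m ∧ JW φ B w x y fun _ _ => True := by
  intro d
  induction d using Nat.strong_induction_on with
  | _ d ih =>
    intro w i h a b
    have a1 := a.1
    have b1 := b.1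
    by_cases k : d ≤ x.n + N m
    · have o : occ (sub w i (max x.n (d + y.n))) w i := occ_sub (by omega)
      exact ⟨_, by simp; omega, .mk' (h.of_occ o (by simp; omega))
        (occ.inside (d := 0) a o (by simp)) (b.inside o (by simp)) trivial⟩
    rw [N] at k
    obtain ⟨p, q, p0, p1, p2, p3, -⟩ := pig m w w 0 0 (i + x.n)
    obtain ⟨z, z1, -, z3, z4⟩ := pump hφ hm hB h p3.W (by omega) (by omega)
    obtain ⟨e, he⟩ := Nat.exists_eq_add_of_le (show q ≤ i + d by omega)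
    have := z4 y e (he ▸ b)
    exact ih (p + e - i) (by omega) z i z1 (z3 x i a (by omega))
      (by rwa [show i + (p + e - i) = p + e by omega])

theorem J_iff (hφ : Amal φ) (hm : 0 < m) (hB : ∀ b ∈ B, b.n ≤ m) (hx : ok φ B x) (hy : ok φ B y) :
    J φ B x y ↔ ∃ w : Pc, w.n ≤ x.n + y.n + N m ∧ JW φ B w x y fun _ _ => True := by
  refine ⟨fun ⟨w, i, j, a, b, c⟩ => ?_, fun ⟨w, _, a, i, _, j, _, b, c, _⟩ => ⟨w, i, j, a, b, c⟩⟩
  rcases le_total i j with h | h <;> obtain ⟨d, rfl⟩ := Nat.exists_eq_add_of_le h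
  · exact J_le hφ hm hB hx.1 d w i a b c
  · obtain ⟨w, e, a, i, -, j, -, b, c, -⟩ := J_le hφ hm hB hy.1 d w j a c b
    exact ⟨w, by omega, .mk' a c b trivial⟩

theorem Sh.two {x' y' : Pc} (hx : Sh φ B m x x') (hy : Sh φ B m y y') (h : ok φ B w) (a : occ x' w i)
    (b : occ y' w j) (e : i + x'.n ≤ j + m) :
    ∃ w i' j', ok φ B w ∧ occ x w i' ∧ occ y w j' ∧ j' + i + x'.n = j + i' + x.n := by
  obtain ⟨w, i', c1, c2, c3⟩ := hx.l w i h a
  obtain ⟨j', c4, c5⟩ := c3 _ _ b e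
  obtain ⟨w', d1, d2, d3⟩ := hy.r w j' c1 c4
  exact ⟨w', i', j', d1, d3 _ _ c2 (by omega), d2, c5⟩

def cF (φ : Loc) (B : Set Pc) (m : ℕ) : Prop := (∀ x : Pc, x.n ≤ m → ok φ B x → x.n ≠ m) ∧
  ∀ x : Pc, x.n ≤ m → ∀ y : Pc, y.n ≤ m → ok φ B x ∧ ok φ B y →
    ∃ w : Pc, w.n ≤ m ∧ JW φ B w x y fun _ _ => True

def cD (φ : Loc) (B : Set Pc) (m M : ℕ) : Prop :=
  ∀ x : Pc, x.n ≤ N m → ∀ y : Pc, y.n ≤ N m → ok φ B x ∧ ok φ B y →
    ∃ w : Pc, w.n ≤ M ∧ JW φ B w x y fun i j => i + x.n ≤ j ∨ j + y.n ≤ i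

def cU (φ : Loc) (B : Set Pc) (t : Pc) : Prop :=
  ∀ y : Pc, y.n ≤ 4 * N t.n → ∀ z : Pc, z.n ≤ 4 * N t.n → ok φ B y → ok φ B z → y.n = z.n →
    ∀ i ≤ y.n, occ t y i → occ t z i → occ y z 0

def cE (φ : Loc) (B : Set Pc) (t : Pc) (M : ℕ) : Prop :=
  ∀ x : Pc, x.n ≤ N t.n → ∀ y : Pc, y.n ≤ N t.n → ok φ B x →
    ∃ w : Pc, w.n ≤ M ∧ JW φ B w x t fun _ _ => True

def cG (φ : Loc) (B : Set Pc) (t : Pc) (M : ℕ) : Prop :=
  ∀ x : Pc, x.n ≤ N t.n → ∀ y : Pc, y.n ≤ N t.n →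
    ok φ B x ∧ ok φ B y ∧ occ t y 0 ∧ (∃ k ≤ x.n, occ t x k ∧ k + t.n = x.n) →
    ∃ w : Pc, w.n ≤ M ∧ JW φ B w x y fun i j => j + t.n = i + x.n

theorem lt_of_none (hm : 0 < m) (h : ∀ x : Pc, x.n ≤ m → ok φ B x → x.n ≠ m) (hx : ok φ B x) :
    x.n ≤ m := by
  by_contra k
  exact h (sub x 0 m) le_rfl (hx.of_occ (occ_sub (by omega)) hm) rfl

theorem cF.atom (hm : 0 < m) (h : cF φ B m) : Atom φ B := fun x y hx hy => by
  obtain ⟨w, -, a, i, -, j, -, b, c, -⟩ :=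
    h.2 x (lt_of_none hm h.1 hx) y (lt_of_none hm h.1 hy) ⟨hx, hy⟩
  exact ⟨w, i, j, a, b, c⟩

theorem cD.atom {M} (hφ : Amal φ) (hm : 0 < m) (hB : ∀ b ∈ B, b.n ≤ m) (h : cD φ B m M) : Atom φ B :=
  fun x y hx hy => by
  obtain ⟨x', x1, x2, x3⟩ := shrink hφ hm hB subset_rfl hx
  obtain ⟨y', y1, y2, y3⟩ := shrink hφ hm hB subset_rfl hy
  obtain ⟨w, -, a, i, -, j, -, b, c, e | e⟩ := h x' x2 y' y2 ⟨x1, y1⟩
  · obtain ⟨w, i, j, a, b, c, -⟩ := x3.two y3 a b c (by omega)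
    exact ⟨w, i, j, a, b, c⟩
  · obtain ⟨w, i, j, a, b, c, -⟩ := y3.two x3 a c b (by omega)
    exact ⟨w, j, i, a, c, b⟩

theorem cU.all (hφ : Amal φ) (hm : 0 < t.n) (hB : ∀ b ∈ B, b.n ≤ t.n) (h : cU φ B t) :
    ∀ n (y z : Pc) i, y.n = n → z.n = n → ok φ B y → ok φ B z → occ t y i → occ t z i → y = z := by
  intro n
  induction n using Nat.strong_induction_on with
  | _ n ih =>
    intro y z i e e' hy hz a b
    have a1 := a.1
    by_cases k : n ≤ 4 * N t.n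
    · exact (occ_refl y).eq (w := y) ((h z (by omega) y (by omega) hz hy (by omega) i (by omega) b
        a)) (by omega)
    rw [N] at k
    have main : ∀ c d, c ≤ d → d < n → (y.E c d ↔ z.E c d) ∧ (y.E d c ↔ z.E d c) := by
      intro c d k1 k2
      obtain ⟨s, s0, s1, s2, s3, s4⟩ : ∃ s, 1 ≤ s ∧ s + C t.n + t.n < n ∧
          (i ≤ s ∨ s + C t.n ≤ i) ∧ (c < s ∨ s + C t.n + t.n ≤ c) ∧
          (d < s ∨ s + C t.n + t.n ≤ d) := by
        by_contra g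
        simp only [not_exists] at g
        have g0 := g 1
        have g1 := g (1 + (C t.n + t.n))
        have g2 := g (1 + 2 * (C t.n + t.n))
        have g3 := g (1 + 3 * (C t.n + t.n))
        omega
      obtain ⟨c', d', c1, c2, c3, c4⟩ : ∃ c' d', c' < s ∧ s + C t.n + t.n ≤ d' ∧ d' < n ∧
          (c < s → s ≤ d → c' = c ∧ d' = d) := by
        by_cases g : c < s ∧ s ≤ d
        exacts [⟨c, d, by omega, by omega, by omega, by omega⟩,
          ⟨0, n - 1, by omega, by omega, by omega, by omega⟩]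
      obtain ⟨p, q, p0, p1, p2, p3, p4⟩ := pig t.n y z c' d' s
      obtain ⟨y', y1, y2, y3, y4, y5, -⟩ :=
        tpump hφ hm hB hy p3 (by omega) (by omega) (by omega) (by omega) (by omega)
      obtain ⟨z', z1, z2, z3, z4, z5, -⟩ :=
        tpump hφ hm hB hz p4 (by omega) (by omega) (by omega) (by omega) (by omega)
      have key : ∀ (j : ℕ) (u v : Pc), u.n = v.n → (j + u.n ≤ s + t.n ∨ s + C t.n ≤ j) →
          occ u y j → occ v z j → ∃ j', occ u y' j' ∧ occ v z' j' := by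
        rintro j u v hu (g | g) o o'
        · exact ⟨j, y3 u j o (by omega), z3 v j o' (by omega)⟩
        · obtain ⟨e, rfl⟩ := Nat.exists_eq_add_of_le (show q ≤ j by omega)
          exact ⟨_, y4 u e o, z4 v e o'⟩
      obtain ⟨i', b1, b2⟩ := key i t t rfl (by omega) a b
      obtain rfl := ih y'.n (by omega) y' z' i' rfl (by omega) y1 z1 b1 b2
      by_cases g : c < s ∧ s ≤ d
      · obtain ⟨rfl, rfl⟩ := c4 g.1 g.2
        have j1 : jp (p + t.n) p q c' = c' := by unfold jp; split_ifs <;> omega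
        have j2 : jp (p + t.n) p q (d' + p - q) = d' := by unfold jp; split_ifs <;> omega
        have u1 := (y5 c' (d' + p - q) (by omega) (by omega)).symm.trans
          (z5 c' (d' + p - q) (by omega) (by omega))
        have u2 := (y5 (d' + p - q) c' (by omega) (by omega)).symm.trans
          (z5 (d' + p - q) c' (by omega) (by omega))
        rw [j1, j2] at u1 u2
        exact ⟨u1, u2⟩
      obtain ⟨d, rfl⟩ := Nat.exists_eq_add_of_le k1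
      have o : occ (sub y c (d + 1)) y c := occ_sub (by omega)
      have o' : occ (sub z c (d + 1)) z c := occ_sub (by omega)
      obtain ⟨j, b1, b2⟩ := key c (sub y c (d + 1)) (sub z c (d + 1)) rfl (by simp; omega) o o'
      have := W.of_occ o (b1.eq b2 rfl ▸ o')
      exact ⟨this 0 (by simp) d (by simp), this d (by simp) 0 (by simp)⟩
    refine pc_ext (by omega) fun c hc d hd => ?_
    rcases le_total c d with g | g
    exacts [(main c d g (by omega)).1, (main d c g (by omega)).2]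

theorem cE.all {M} (hφ : Amal φ) (hm : 0 < t.n) (hB : ∀ b ∈ B, b.n ≤ t.n) (h : cE φ B t M) (hx : ok φ B x) :
    J φ B x t := by
  by_cases k : ∃ i, occ t x i
  · exact ⟨x, 0, k.choose, hx, occ_refl x, k.choose_spec⟩
  obtain ⟨x', x1, x2, x3⟩ := shrink (B := B) (B' := insert t B) hφ hm
    (by rintro b (rfl | hb); exacts [le_rfl, hB b hb]) (Set.subset_insert _ _)
    ⟨hx.1, hx.2.1, by rintro b (rfl | hb) i; exacts [fun g => k ⟨i, g⟩, hx.2.2 b hb i]⟩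
  obtain ⟨w, -, a, i, -, j, -, b, c, -⟩ :=
    h x' x2 x' x2 ⟨x1.1, x1.2.1, fun b hb => x1.2.2 b (Or.inr hb)⟩
  rcases le_total j i with e | e
  · obtain ⟨w', d1, d2, d3⟩ := x3.r w i a b
    exact ⟨w', i, j, d1, d2, d3 _ _ c (by omega)⟩
  · obtain ⟨w', i', d1, d2, d3⟩ := x3.l w i a b
    obtain ⟨d, rfl⟩ := Nat.exists_eq_add_of_le e
    obtain ⟨j', d4, -⟩ := d3 _ _ c (by
      by_contra g
      exact x1.2.2 t (Or.inl rfl) d (c.inside b (by omega)))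
    exact ⟨w', i', j', d1, d2, d4⟩

theorem atom_of_P {M M'} (hφ : Amal φ) (ht : ok φ B t) (hB : ∀ b ∈ B, b.n ≤ t.n) (hU : cU φ B t)
    (hE : cE φ B t M) (hG : cG φ B t M') : Atom φ B := by
  intro x y hx hy
  have hm := ht.1
  obtain ⟨z, i0, i, z1, z2, z3⟩ := hE.all hφ hm hB hx
  obtain ⟨z', j0, j, y1, y2, y3⟩ := hE.all hφ hm hB hy
  have a1 := z3.1
  have a2 := y3.1
  have L : ∀ z i, ok φ B z → occ t z i → ∃ u, ok φ B u ∧ occ t u i ∧ i + t.n = u.n := fun z i a b =>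
    ⟨sub z 0 (i + t.n), a.of_occ (occ_sub (by simpa using b.1)) (by simp; omega),
      occ.inside (i := 0) (by simpa using b) (occ_sub (by simpa using b.1)) le_rfl, rfl⟩
  have R : ∀ z i, ok φ B z → occ t z i → ∃ v, ok φ B v ∧ occ t v 0 ∧ i + v.n = z.n := fun z i a b => by
    have := b.1
    exact ⟨sub z i (z.n - i), a.of_occ (occ_sub (by omega)) (by simp; omega),
      occ.inside (d := 0) b (occ_sub (by omega)) (by simp; omega),
      by simp; omega⟩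
  obtain ⟨u, I, u1, u2, u3, u4, u5⟩ : ∃ u I, ok φ B u ∧ occ t u I ∧ I + t.n = u.n ∧ i ≤ I ∧ j ≤ I := by
    rcases le_total i j with e | e
    · obtain ⟨u, a, b, c⟩ := L z' j y1 y3
      exact ⟨u, j, a, b, c, e, le_rfl⟩
    · obtain ⟨u, a, b, c⟩ := L z i z1 z3
      exact ⟨u, i, a, b, c, le_rfl, e⟩
  obtain ⟨v, v1, v2, v3, v4⟩ : ∃ v, ok φ B v ∧ occ t v 0 ∧ z.n ≤ i + v.n ∧ z'.n ≤ j + v.n := by
    rcases le_total (i + z'.n) (j + z.n) with e | e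
    · obtain ⟨v, a, b, c⟩ := R z i z1 z3
      exact ⟨v, a, b, by omega, by omega⟩
    · obtain ⟨v, a, b, c⟩ := R z' j y1 y3
      exact ⟨v, a, b, by omega, by omega⟩
  obtain ⟨u', p1, p2, p3⟩ := shrink hφ hm hB subset_rfl u1
  obtain ⟨v', q1, q2, q3⟩ := shrink hφ hm hB subset_rfl v1
  obtain ⟨k, k1, k2⟩ := p3.b t I rfl u2 u3
  obtain ⟨w, -, a, i', -, j', -, b, c, e⟩ :=
    hG u' p2 v' q2 ⟨p1, q1, q3.a t rfl v2, k, by omega, k1, k2⟩
  obtain ⟨w, p, q, a, b, c, e'⟩ := p3.two q3 a b c (by omega)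
  have F : ∀ z i, ok φ B z → occ t z i → i ≤ I → z.n ≤ i + v.n → ∃ k, occ z w k := by
    intro z i h1 h2 h3 h4
    obtain ⟨d, rfl⟩ := Nat.exists_eq_add_of_le h3
    have := c.1
    have o : occ (sub w (p + d) z.n) w (p + d) := occ_sub (by omega)
    have g := u2.trans b
    rw [show p + (i + d) = p + d + i by omega] at g
    exact ⟨_, (hU.all hφ hm hB z.n z (sub w (p + d) z.n) i rfl rfl h1 (a.of_occ o h1.1) h2
      (g.inside o h2.1)).symm ▸ o⟩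
  obtain ⟨k, g⟩ := F z i z1 z3 u4 v3
  obtain ⟨k', g'⟩ := F z' j y1 y3 u5 v4
  exact ⟨w, _, _, a, z2.trans g, y2.trans g'⟩

def Cert (φ : Loc) (B : Set Pc) (m : ℕ) (t : Pc) (M M' : ℕ) : Prop := cF φ B m ∨ cD φ B m M ∨
  (ok φ B t ∧ m ≤ t.n ∧ cU φ B t ∧ cE φ B t M ∧ cG φ B t M')

theorem atom_iff (hφ : Amal φ) (hm : 0 < m) (hB : ∀ b ∈ B, b.n ≤ m) : Atom φ B ↔ ∃ t M M', Cert φ B m t M M' := by
  refine ⟨fun h => ?_, ?_⟩
  swap
  · rintro ⟨t, M, M', h | h | ⟨a, b, d, e, f⟩⟩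
    exacts [h.atom hm, h.atom hφ hm hB, atom_of_P hφ a (fun x hx => (hB x hx).trans b) d e f]
  by_cases hF : ∀ x : Pc, x.n ≤ m → ok φ B x → x.n ≠ m
  · refine ⟨P (0, []), 0, 0, Or.inl ⟨hF, fun x _ y _ g => ?_⟩⟩
    obtain ⟨w, i, j, a, b, c⟩ := h x y g.1 g.2
    exact ⟨w, lt_of_none hm hF a, .mk' a b c trivial⟩
  by_cases hD : ∀ x y, ok φ B x ∧ ok φ B y → ∃ w, JW φ B w x y fun i j => i + x.n ≤ j ∨ j + y.n ≤ i
  · obtain ⟨M, hM⟩ := finsup (N m) hD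
    exact ⟨P (0, []), M, 0, Or.inr (Or.inl hM)⟩
  simp only [not_forall, not_not] at hF hD
  obtain ⟨y0, -, y1, y2⟩ := hF
  obtain ⟨x, y, ⟨hx, hy⟩, hD⟩ := hD
  obtain ⟨x0, ix, iy, a, b, c⟩ := h x y hx hy
  let S : Set ℕ := {d | ∃ w i, ok φ B w ∧ occ x0 w i ∧ occ x0 w (i + d)}
  have hS : BddAbove S := ⟨x0.n, by
    rintro d ⟨w, i, p, q, r⟩
    by_contra g
    exact hD ⟨w, .mk' p (b.trans q) (c.trans r) (Or.inl (by have := b.1; omega))⟩⟩
  obtain ⟨w, i, p, q, r⟩ := Nat.sSup_mem (s := S) ⟨0, x0, 0, a, occ_refl _, occ_refl _⟩ hS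
  have o : occ (sub w i (sSup S + x0.n)) w i := occ_sub (by have := r.1; omega)
  have o1 := occ.inside (d := 0) q o (by simp)
  have o2 := r.inside o le_rfl
  obtain ⟨t, k, _, ht, t1, t2⟩ := h _ y0 (p.of_occ o (by have := a.1; simp; omega)) y1
  have tm : m ≤ t.n := by have := t2.1; omega
  have U : ∀ w i j, ok φ B w → occ t w i → occ t w j → i ≤ j := by
    intro w i j g g1 g2
    by_contra g3
    have : sSup S + (i - j) ∈ S := ⟨w, _, g, o1.trans (t1.trans g2), by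
      have := o2.trans (t1.trans g1)
      rwa [show i + k + sSup S = j + k + 0 + (sSup S + (i - j)) by omega] at this⟩
    have := le_csSup hS this
    omega
  have AJ : ∀ z z' i j, ok φ B z → ok φ B z' → occ t z i → occ t z' j →
      ∃ w p q, ok φ B w ∧ occ z w p ∧ occ z' w q ∧ p + i = q + j := by
    intro z z' i j g1 g2 g3 g4
    obtain ⟨w, p, q, a, b, c⟩ := h z z' g1 g2
    exact ⟨w, p, q, a, b, c, le_antisymm (U w _ _ a (g3.trans b) (g4.trans c))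
      (U w _ _ a (g4.trans c) (g3.trans b))⟩
  have UU : ∀ z z' i, ok φ B z → ok φ B z' → z.n = z'.n → occ t z i → occ t z' i → z = z' := by
    intro z z' i g1 g2 e g3 g4
    obtain ⟨w, p, q, a, b, c, d⟩ := AJ z z' i i g1 g2 g3 g4
    exact b.eq (show p = q by omega ▸ c) e
  obtain ⟨M, hM⟩ := finsup (N t.n) (H := fun x _ => ok φ B x)
    (Q := fun x _ w => JW φ B w x t fun _ _ => True) fun x _ g => by
      obtain ⟨w, i, j, a, b, c⟩ := h x t g ht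
      exact ⟨w, .mk' a b c trivial⟩
  obtain ⟨M', hM'⟩ := finsup (N t.n)
    (H := fun x y => ok φ B x ∧ ok φ B y ∧ occ t y 0 ∧ (∃ k ≤ x.n, occ t x k ∧ k + t.n = x.n))
    (Q := fun x y w => JW φ B w x y fun i j => j + t.n = i + x.n)
    fun x y ⟨g1, g2, g3, k, _, g4, g5⟩ => by
      obtain ⟨w, p, q, a, b, c, d⟩ := AJ x y k 0 g1 g2 g4 g3
      exact ⟨w, .mk' a b c (by omega)⟩
  exact ⟨t, M, M', Or.inr (Or.inr ⟨ht, tm,
    fun y _ z _ g1 g2 e i _ g3 g4 => UU y z i g1 g2 e g3 g4 ▸ occ_refl y, hM, hM'⟩)⟩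

end Pool.Agent.H.MP_7b05dd_co
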