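import Pool.Agent.H.MP_7b05dd_co.B

/-! The two finite obstructions to well-quasi-order. -/

namespace Pool.Agent.H.MP_7b05dd_co

variable {φ : Loc} {B : Set Pc} {x y z g h : Pc} {i m L : ℕ}

def NoAC (φ : Loc) (B : Set Pc) : Prop := ∀ f : ℕ → Pc, (∀ i, ok φ B (f i)) →
  StrictMono (fun i => (f i).n) → ∃ i j, i < j ∧ ∃ k, occ (f i) (f j) k

def Amb (φ : Loc) (B : Set Pc) (y z : Pc) : Prop := ok φ B y ∧ ok φ B z ∧ y.n = z.n ∧ ¬occ y z 0 ∧
  ∀ a < y.n, ∀ b < y.n, ¬(a = 0 ∧ b + 1 = y.n) → ¬(b = 0 ∧ a + 1 = y.n) → (y.E a b ↔ z.E a b)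

def Bad (φ : Loc) (B : Set Pc) (L : ℕ) (x g h : Pc) : Prop :=
  ok φ B x ∧ ok φ B g ∧ ok φ B h ∧ g.n = L + 1 ∧ h.n = L + 1 ∧ ∃ d ≤ x.n, x.n = d + L ∧
    W L x 0 x d ∧ (∃ a < d, W L g 1 x (a + 1) ∧ ¬W (L + 1) g 0 x a) ∧
      ∃ b < d, W L h 0 x b ∧ ¬W (L + 1) h 0 x b

theorem W.pre {j} (h : W (L + 1) x i y j) : W L x i y j := h.part (d := 0) (by omega)

theorem W.suf {j} (h : W (L + 1) x i y j) : W L x (i + 1) y (j + 1) := h.part (by omega)

theorem sub_W {k} (h : i + k ≤ x.n) : W k (sub x i k) 0 x i := (occ_sub h).W (d := 0) (by simp)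

theorem path (hφ : Amal φ) (hB : ∀ b ∈ B, b.n ≤ L) (G : ℕ → Pc) : ∀ l,
    (∀ r ≤ l, ok φ B (G r) ∧ (G r).n = L + 1) → (∀ r < l, W L (G r) 1 (G (r + 1)) 0) →
    ∃ Y, ok φ B Y ∧ Y.n = l + L + 1 ∧ ∀ r ≤ l, occ (G r) Y r := by
  intro l
  induction l with
  | zero =>
    refine fun h _ => ⟨G 0, (h 0 le_rfl).1, by simp [(h 0 le_rfl).2], fun r hr => ?_⟩
    obtain rfl : r = 0 := by omega
    exact occ_refl _
  | succ l ih =>
    intro h h'
    obtain ⟨Y, y1, y2, y3⟩ := ih (fun r hr => h r (by omega)) fun r hr => h' r (by omega)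
    have e := (h l (by omega)).2
    have e' := (h _ le_rfl).2
    obtain ⟨w, a, b, c, d⟩ := am2 (s := l + 1) hφ hB y1 (h _ le_rfl).1 (by omega) (by omega)
      (((y3 l le_rfl).W (by omega)).symm.trans (h' l (by omega)))
    refine ⟨w, a, by omega, fun r hr => ?_⟩
    rcases Nat.lt_or_eq_of_le hr with g | rfl
    · simpa using (y3 r (by omega)).trans c
    · exact d

theorem Bad.not (hφ : Amal φ) (hB : ∀ b ∈ B, b.n ≤ L) (H : Bad φ B L x g h) : ¬NoAC φ B := by
  obtain ⟨hx, hg, hh, gn, hn, d, -, xn, cy, ⟨a, ha, a1, a2⟩, b, hb, b1, b2⟩ := H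
  intro hN
  obtain ⟨ρ, r0, r1, r2, r3, r4⟩ : ∃ ρ : ℕ → ℕ, (∀ r, ρ r < d) ∧
      (∀ r, ρ (r + 1) = ρ r + 1 ∨ (ρ r + 1 = d ∧ ρ (r + 1) = 0)) ∧ (∀ r, ρ (r + d) = ρ r) ∧
      ρ 0 = a ∧ ∀ j, ρ ((j + 2) * d + b - a) = b := by
    refine ⟨fun r => (a + r) % d, fun r => Nat.mod_lt _ (by omega), fun r => ?_, fun r => ?_,
      Nat.mod_eq_of_lt ha, fun j => ?_⟩
    · have := Nat.mod_lt (a + r) (show 0 < d by omega)
      simp only [← add_assoc, ← Nat.mod_add_mod (a + r)]
      rcases Nat.lt_or_eq_of_le (Nat.succ_le_of_lt this) with k | k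
      · exact Or.inl (Nat.mod_eq_of_lt k)
      · exact Or.inr ⟨k, by rw [show (a + r) % d + 1 = d from k, Nat.mod_self]⟩
    · simp only [← add_assoc, Nat.add_mod_right]
    · have : a + ((j + 2) * d + b - a) = b + d * (j + 2) := by
        have : (j + 2) * d = j * d + 2 * d := by ring
        rw [mul_comm d]
        omega
      simp only [this, Nat.add_mul_mod_self_left, Nat.mod_eq_of_lt hb]
  obtain ⟨l, l0, l1, l2⟩ : ∃ l : ℕ → ℕ, (∀ j, d < l j) ∧ StrictMono l ∧ ∀ j, ρ (l j) = b := by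
    refine ⟨fun j => (j + 2) * d + b - a, fun j => ?_, strictMono_nat_of_lt_succ fun j => ?_, r4⟩
    · have : (j + 2) * d = j * d + 2 * d := by ring
      simp only
      omega
    · have : (j + 2) * d = j * d + 2 * d := by ring
      have : (j + 1 + 2) * d = j * d + 3 * d := by ring
      omega
  have sw : ∀ r, W (L + 1) (sub x (ρ r) (L + 1)) 0 x (ρ r) := fun r =>
    sub_W (by have := r0 r; omega)
  let G : ℕ → ℕ → Pc := fun j r =>
    if r = 0 then g else if r = l j then h else sub x (ρ r) (L + 1)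
  have G0 : ∀ j r, ok φ B (G j r) ∧ (G j r).n = L + 1 := fun j r => by
    simp only [G]
    split_ifs
    exacts [⟨hg, gn⟩, ⟨hh, hn⟩, ⟨hx.of_occ (occ_sub (by have := r0 r; omega)) (by simp), rfl⟩]
  have G1 : ∀ j r, 0 < r → r < l j → G j r = sub x (ρ r) (L + 1) := fun j r p q => by
    simp only [G, p.ne', q.ne, if_false]
  have G2 : ∀ j, G j (l j) = h := fun j => by
    simp only [G, show l j ≠ 0 by have := l0 j; omega, if_false, if_true]
  have G3 : ∀ j, G j 0 = g := fun j => if_pos rfl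
  choose Y y1 y2 y3 using fun j => path hφ hB (G j) (l j) (fun r _ => G0 j r) fun r hr => by
    have p : W L (G j r) 1 x (ρ r + 1) := by
      rcases Nat.eq_zero_or_pos r with rfl | k
      · rwa [G3, r3]
      · rw [G1 j r k hr]
        exact (sw r).suf
    have q : W L (G j (r + 1)) 0 x (ρ (r + 1)) := by
      rcases Nat.lt_or_eq_of_le (Nat.succ_le_of_lt hr) with k | k
      · rw [G1 j _ (by omega) k]
        exact (sw _).pre
      · rwa [show r + 1 = l j from k, G2, l2]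
    refine p.trans (W.trans ?_ q.symm)
    rcases r1 r with k | ⟨k, k'⟩
    · rw [k]; exact .refl
    · rw [k, k']; exact cy.symm
  obtain ⟨i, j, ij, o, ho⟩ := hN Y y1 fun i j ij => by
    have := l1 ij
    simp only [y2]
    omega
  have := l1 ij
  have o1 := ho.1
  rw [y2, y2] at o1
  have key : ∀ r ≤ l i, G i r = G j (o + r) := fun r hr =>
    ((y3 i r hr).trans ho).eq (y3 j _ (by omega)) (by rw [(G0 _ _).2, (G0 _ _).2])
  have := l0 i
  rcases Nat.eq_zero_or_pos o with rfl | k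
  · have e := key _ le_rfl
    rw [G2, zero_add, G1 j _ (by omega) (by omega)] at e
    exact b2 (by rw [e, ← l2 i]; exact sw _)
  · have e := key 0 (by omega)
    have e' := key d (by omega)
    rw [G1 i d (by omega) (by omega), G1 j _ (by omega) (by omega), r2] at e'
    rw [G3, add_zero, G1 j _ k (by omega), ← e'] at e
    have := sw d
    rw [← e, ← zero_add d, r2, r3] at this
    exact a2 this

theorem incons {p q} (hx : ok φ B x) (e : p < q) (e' : q + L + 1 ≤ x.n) (h0 : W L x p x q)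
    (h1 : W L x (p + 1) x (q + 1)) (h2 : ¬W (L + 1) x p x q) : ∃ x g h, Bad φ B L x g h := by
  obtain ⟨d, rfl⟩ := Nat.exists_eq_add_of_le e.le
  have o : occ (sub x p (d + L)) x p := occ_sub (by omega)
  have o' : occ (sub x (p + d) (L + 1)) x (p + d) := occ_sub (by omega)
  have s := sub_W (x := x) (i := p + d) (k := L + 1) (by omega)
  have n : ¬W (L + 1) (sub x (p + d) (L + 1)) 0 (sub x p (d + L)) 0 := fun g =>
    h2 ((s.symm.trans g).trans (o.W (d := 0) (by simp; omega))).symm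
  exact ⟨_, _, _, hx.of_occ o (by simp; omega), hx.of_occ o' (by simp), hx.of_occ o' (by simp), rfl,
    rfl, d, by simp, rfl, ((o.W (d := 0) (by simp)).trans h0).trans (o.W (by simp)).symm,
    ⟨0, by omega, (s.suf.trans h1.symm).trans (o.W (by simp; omega)).symm, n⟩, 0, by omega,
    (s.pre.trans h0.symm).trans (o.W (d := 0) (by simp)).symm, n⟩

theorem Amb.pump {p q} (hφ : Amal φ) (hm : 0 < m) (hB : ∀ b ∈ B, b.n ≤ m) (H : Amb φ B y z)
    (h : St m y 0 (y.n - 1) p q) (p0 : 0 < p) (q0 : 0 < q) (p1 : p + m < y.n) (q1 : q + m < y.n) :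
    ∃ y' z', Amb φ B y' z' ∧ y'.n + q = y.n + p := by
  classical
  obtain ⟨hy, hz, e, ne, ag⟩ := H
  obtain ⟨w, w1, w2, -, -, w3, w4⟩ :=
    tpump hφ hm hB hy h p0 q0 (by omega) (by omega) (by omega)
  let S : ℕ → ℕ → Prop := fun a b => if a = 0 ∧ b + 1 = w.n then z.E 0 (y.n - 1) else
    if b = 0 ∧ a + 1 = w.n then z.E (y.n - 1) 0 else w.E a b
  have s0 : ∀ a b, ¬(a = 0 ∧ b + 1 = w.n) → ¬(b = 0 ∧ a + 1 = w.n) → (S a b ↔ w.E a b) :=
    fun a b u v => by simp only [S, u, v, if_false]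
  have s1 : ∀ r, p ≤ r → r ≤ p + m → ∀ a b, a < w.n → b < w.n → (a < r ∨ p ≤ a) → (b < r ∨ p ≤ b) →
      (w.E a b ↔ y.E (jp r p q a) (jp r p q b)) → (S a b ↔ z.E (jp r p q a) (jp r p q b)) := by
    intro r r1 r2 a b ha hb a1 b1 k
    by_cases u : a = 0 ∧ b + 1 = w.n
    · rw [show jp r p q a = 0 by unfold jp; split_ifs <;> omega,
        show jp r p q b = y.n - 1 by unfold jp; split_ifs <;> omega]
      simp only [S, u, and_self, if_true]
    by_cases v : b = 0 ∧ a + 1 = w.n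
    · rw [show jp r p q b = 0 by unfold jp; split_ifs <;> omega,
        show jp r p q a = y.n - 1 by unfold jp; split_ifs <;> omega]
      simp only [S, u, if_false, if_pos v]
    rw [s0 a b u v, k]
    apply ag <;> unfold jp <;> split_ifs <;> omega
  let v : Pc := ⟨w.n, fun a b => a < w.n ∧ b < w.n ∧ S a b, fun h => ⟨h.1, h.2.1⟩⟩
  have v0 : ∀ a < w.n, ∀ b < w.n, (v.E a b ↔ S a b) := fun a ha b hb =>
    ⟨fun h => h.2.2, fun h => ⟨ha, hb, h⟩⟩
  have k1 : K φ (fun a => a < p + m ∨ a + 1 = w.n) S := hz.2.1.pull (jp (p + m) p q)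
    (fun a ha => by unfold jp; split_ifs <;> omega) (fun a b _ _ => by unfold jp; split_ifs <;> omega)
    fun a b ha hb => s1 _ (by omega) le_rfl a b (by omega) (by omega) (by omega) (by omega)
      (w3 a b (by omega) (by omega))
  have k2 : K φ (fun a => (a = 0 ∨ p ≤ a) ∧ a < w.n) S := hz.2.1.pull (jp p p q)
    (fun a ha => by unfold jp; split_ifs <;> omega) (fun a b _ _ => by unfold jp; split_ifs <;> omega)
    fun a b ha hb => s1 _ le_rfl (by omega) a b ha.2 hb.2 (by omega) (by omega)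
      (w4 a ha.2 b hb.2 ha.1 hb.1)
  have k3 : K φ (fun a => 0 < a ∧ a < w.n) S := w1.2.1.pull id (fun a ha => ha.2)
    (fun _ _ _ _ e => e) fun a b ha hb => s0 a b (by omega) (by omega)
  have k4 : K φ (fun a => a + 1 < w.n) S := w1.2.1.pull id (fun a ha => by simp; omega)
    (fun _ _ _ _ e => e) fun a b ha hb => s0 a b (by omega) (by omega)
  have k5 : K φ (· < w.n) S := fun a ha b hb c hc => by
    by_cases g3 : 0 < a ∧ 0 < b ∧ 0 < c
    · exact k3 a (by omega) b (by omega) c (by omega)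
    by_cases g4 : a + 1 < w.n ∧ b + 1 < w.n ∧ c + 1 < w.n
    · exact k4 a (by omega) b (by omega) c (by omega)
    by_cases g1 : (a < p + m ∨ a + 1 = w.n) ∧ (b < p + m ∨ b + 1 = w.n) ∧ (c < p + m ∨ c + 1 = w.n)
    · exact k1 a g1.1 b g1.2.1 c g1.2.2
    · exact k2 a (by omega) b (by omega) c (by omega)
  refine ⟨w, v, ⟨w1, ⟨w1.1, k5.pull id (fun _ => id) (fun _ _ _ _ e => e) fun a b ha hb =>
    v0 a ha b hb, fun b hb i g => w1.2.2 b hb i ⟨g.1, fun c hc d hd => ?_⟩⟩, rfl, fun g => ne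
      ⟨by omega, fun a ha b hb => ?_⟩, fun a ha b hb u u' => ((v0 a ha b hb).trans
        (s0 a b u u')).symm⟩, w2⟩
  · have : i + b.n ≤ w.n := g.1
    have := hB b hb
    rw [g.2 c hc d hd, v0 _ (by omega) _ (by omega), s0 _ _ (by omega) (by omega)]
  · have t : ∀ a b, (a = 0 ∨ a + 1 = w.n) → (b = 0 ∨ b + 1 = w.n) →
        (y.E (jp p p q a) (jp p p q b) ↔ z.E (jp p p q a) (jp p p q b)) := fun a b ha hb => by
      have k := w4 a (by omega) b (by omega) (by omega) (by omega)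
      rw [← s1 _ le_rfl (by omega) a b (by omega) (by omega) (by omega) (by omega) k, ← k,
        g.2 a (by omega) b (by omega), zero_add, zero_add, v0 a (by omega) b (by omega)]
    have j0 : jp p p q 0 = 0 := if_pos p0
    have j1 : jp p p q (w.n - 1) = y.n - 1 := by unfold jp; split_ifs <;> omega
    rw [zero_add, zero_add]
    by_cases u : a = 0 ∧ b + 1 = y.n
    · have := t 0 (w.n - 1) (by omega) (by omega)
      rwa [j0, j1, ← u.1, show y.n - 1 = b by omega] at this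
    by_cases u' : b = 0 ∧ a + 1 = y.n
    · have := t (w.n - 1) 0 (by omega) (by omega)
      rwa [j0, j1, ← u'.1, show y.n - 1 = a by omega] at this
    exact ag a ha b hb u u'

theorem Amb.bdd (hφ : Amal φ) (hm : 0 < m) (hB : ∀ b ∈ B, b.n ≤ m) : ∀ n y z, Amb φ B y z →
    y.n = n → N m < n → ∃ y : Pc, y.n ≤ 2 * N m ∧ ∃ z : Pc, z.n ≤ 2 * N m ∧ Amb φ B y z ∧
      N m < y.n := by
  intro n
  induction n using Nat.strong_induction_on with
  | _ n ih =>
    intro y z H e h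
    by_cases k : n ≤ 2 * N m
    · exact ⟨y, by omega, z, by have := H.2.2.1; omega, H, by omega⟩
    have : N m = 2 * m + C m := rfl
    obtain ⟨p, q, p0, p1, p2, p3, -⟩ := pig m y y 0 (y.n - 1) 1
    obtain ⟨y', z', a, b⟩ := H.pump hφ hm hB p3 (by omega) (by omega) (by omega) (by omega)
    exact ih y'.n (by omega) y' z' a rfl (by omega)

def Le' (x y : Pc) : Prop := ∃ k, occ x y k

instance : IsTrans Pc Le' := ⟨fun _ _ _ ⟨_, a⟩ ⟨_, b⟩ => ⟨_, a.trans b⟩⟩

theorem Amb.not (hφ : Amal φ) (hm : 0 < m) (hB : ∀ b ∈ B, b.n ≤ m) (H : Amb φ B y z)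
    (h : N m < y.n) : ¬NoAC φ B := by
  have up : ∀ u : {u : Pc × Pc // Amb φ B u.1 u.2 ∧ N m < u.1.n},
      ∃ v : {u : Pc × Pc // Amb φ B u.1 u.2 ∧ N m < u.1.n}, u.1.1.n < v.1.1.n := by
    rintro ⟨⟨y, z⟩, H, h⟩
    simp only [N] at h H
    obtain ⟨p, q, p0, p1, p2, p3, -⟩ := pig m y y 0 (y.n - 1) 1
    obtain ⟨y', z', a, b⟩ := H.pump hφ hm hB p3.symm (by omega) (by omega) (by omega) (by omega)
    exact ⟨⟨(y', z'), a, by simp only [N]; omega⟩, by simp only; omega⟩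
  choose nx hnx using up
  obtain ⟨Y, Z, a, b, c⟩ : ∃ Y Z : ℕ → Pc, (∀ i, Amb φ B (Y i) (Z i)) ∧ (∀ i, N m < (Y i).n) ∧
      StrictMono fun i => (Y i).n :=
    ⟨fun i => (nx^[i] ⟨(y, z), H, h⟩).1.1, fun i => (nx^[i] ⟨(y, z), H, h⟩).1.2,
      fun i => (nx^[i] _).2.1, fun i => (nx^[i] _).2.2, strictMono_nat_of_lt_succ fun i => by
        simp only [Function.iterate_succ_apply']
        exact hnx _⟩
  intro hN
  obtain ⟨s, hs | hs⟩ := exists_increasing_or_nonincreasing_subseq Le' Y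
  swap
  · obtain ⟨i, j, ij, o⟩ := hN (Y ∘ s) (fun i => (a _).1) (c.comp s.strictMono)
    exact hs i j ij o
  obtain ⟨i, j, ij, k, o⟩ := hN (Z ∘ s) (fun i => (a _).2.1) fun i j ij => by
    simpa only [Function.comp_apply, ← (a _).2.2.1] using c (s.strictMono ij)
  obtain ⟨k', o'⟩ := hs i j ij
  have lt : (Y (s i)).n < (Y (s j)).n := c (s.strictMono ij)
  simp only [Function.comp_apply] at o
  obtain ⟨y1, z1, e1, n1, g1⟩ := a (s i)
  obtain ⟨y2, z2, e2, n2, g2⟩ := a (s j)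
  have b1 := b (s i)
  rw [N] at b1
  generalize Y (s i) = y, Z (s i) = z, Y (s j) = x, Z (s j) = x' at *
  have o1 := o.1
  have o2 := o'.1
  have o'' : occ z x k := ⟨by omega, fun a ha b hb => by
    rw [o.2 a ha b hb, g2 _ (by omega) _ (by omega) (by omega) (by omega)]⟩
  obtain ⟨L, hL⟩ : ∃ L, y.n = L + 1 := ⟨y.n - 1, by omega⟩
  have w0 : W L x k' x k := ((o'.W (d := 0) (by omega)).symm.trans fun a ha b hb =>
    g1 _ (by omega) _ (by omega) (by omega) (by omega)).trans (o''.W (d := 0) (by omega))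
  have w1 : W L x (k' + 1) x (k + 1) := ((o'.W (d := 1) (by omega)).symm.trans fun a ha b hb =>
    g1 _ (by omega) _ (by omega) (by omega) (by omega)).trans (o''.W (d := 1) (by omega))
  have w2 : ¬W (L + 1) x k' x k := fun g => n1 ⟨by omega, fun a ha b hb => by
    simpa using ((o'.W (d := 0) (by omega)).trans (g.trans (o''.W (d := 0) (by omega)).symm))
      a (by omega) b (by omega)⟩
  have : ∃ x g h, Bad φ B L x g h := by
    rcases lt_trichotomy k' k with g | rfl | g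
    exacts [incons y2 g (by omega) w0 w1 w2, (w2 .refl).elim,
      incons y2 g (by omega) w0.symm w1.symm fun g => w2 g.symm]
  obtain ⟨x, g, h, H⟩ := this
  exact H.not hφ (fun b hb => (hB b hb).trans (by omega)) hN

theorem Bad.bdd (hφ : Amal φ) (hL : 0 < L) (hB : ∀ b ∈ B, b.n ≤ L) : ∀ n (x : Pc), x.n = n →
    Bad φ B L x g h → ∃ x : Pc, x.n ≤ 3 * N L ∧ Bad φ B L x g h := by
  intro n
  induction n using Nat.strong_induction_on with
  | _ n ih =>
    intro x e H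
    by_cases k : n ≤ 3 * N L
    · exact ⟨x, by omega, H⟩
    rw [N] at k
    obtain ⟨hx, hg, hh, gn, hn, d, -, xn, cy, ⟨a, ha, a1, a2⟩, b, hb, b1, b2⟩ := H
    obtain ⟨s, s1, s2, s3⟩ : ∃ s, s + C L ≤ d ∧ (a < s ∨ s + C L ≤ a) ∧ (b < s ∨ s + C L ≤ b) := by
      by_contra g
      simp only [not_exists] at g
      have g0 := g 0
      have g1 := g (C L)
      have g2 := g (2 * C L)
      omega
    obtain ⟨p, q, p0, p1, p2, p3, -⟩ := pig L x x 0 0 s
    obtain ⟨y, y1, y2, y3, y4⟩ := pump hφ hL hB hx p3.W (by omega) (by omega)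
    have key : ∀ a < d, (a < s ∨ s + C L ≤ a) → ∃ a', a' + q < d + p ∧ W (L + 1) x a y a' := by
      intro a ha g
      have o : occ (sub x a (L + 1)) x a := occ_sub (by omega)
      rcases g with g | g
      · exact ⟨a, by omega, W.of_occ o (y3 _ _ o (by simp; omega))⟩
      · obtain ⟨e, rfl⟩ := Nat.exists_eq_add_of_le (show q ≤ a by omega)
        exact ⟨_, by omega, W.of_occ o (y4 _ _ o)⟩
    obtain ⟨a', a3, a4⟩ := key a ha s2
    obtain ⟨b', b3, b4⟩ := key b hb s3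
    obtain ⟨e, rfl⟩ := Nat.exists_eq_add_of_le (show q ≤ d by omega)
    have o : occ (sub x 0 L) x 0 := occ_sub (by omega)
    have o' : occ (sub x (q + e) L) x (q + e) := occ_sub (by omega)
    exact ih y.n (by omega) y rfl ⟨y1, hg, hh, gn, hn, p + e, by omega, by omega,
      (W.trans (m := L) (W.of_occ o (y3 _ _ o (by simp))).symm cy).trans
        (W.of_occ o' (y4 _ _ o')),
      ⟨a', by omega, a1.trans a4.suf, fun g => a2 (g.trans a4.symm)⟩, b', by omega,
      b1.trans b4.pre, fun g => b2 (g.trans b4.symm)⟩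

end Pool.Agent.H.MP_7b05dd_co
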