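import Pool.Agent.H.MP_7b05dd_co.C

/-! Without the two obstructions the class is well-quasi-ordered. -/

namespace Pool.Agent.H.MP_7b05dd_co

variable {φ : Loc} {B : Set Pc} {x y z : Pc} {i d m L : ℕ}

theorem rigid (hA : ¬∃ y z, Amb φ B y z ∧ L < y.n) : ∀ n (y z : Pc), y.n = n → z.n = n →
    ok φ B y → ok φ B z → (∀ a < n, ∀ b < n, a ≤ b + L → b ≤ a + L → (y.E a b ↔ z.E a b)) →
    y = z := by
  intro n
  induction n using Nat.strong_induction_on with
  | _ n ih =>
    intro y z e e' hy hz h
    by_cases k : n ≤ L + 1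
    · exact pc_ext (by omega) fun a ha b hb => h a (by omega) b (by omega) (by omega) (by omega)
    have key : ∀ s ≤ 1, W (n - 1) y s z s := fun s hs => by
      have o : occ (sub y s (n - 1)) y s := occ_sub (by omega)
      have o' : occ (sub z s (n - 1)) z s := occ_sub (by omega)
      have := ih (n - 1) (by omega) _ _ rfl rfl (hy.of_occ o (by simp; omega))
        (hz.of_occ o' (by simp; omega)) fun a ha b hb p q => by
          rw [o.2 a ha b hb, o'.2 a ha b hb]
          exact h _ (by omega) _ (by omega) (by omega) (by omega)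
      exact W.of_occ o (this ▸ o')
    by_contra ne
    refine hA ⟨y, z, ⟨hy, hz, by omega, fun g => ne ((occ_refl z).eq g (by omega)).symm,
      fun a ha b hb p q => ?_⟩, by omega⟩
    by_cases g : a < n - 1 ∧ b < n - 1
    · simpa using key 0 (by omega) a g.1 b g.2
    · have := key 1 le_rfl (a - 1) (by omega) (b - 1) (by omega)
      rwa [show 1 + (a - 1) = a by omega, show 1 + (b - 1) = b by omega] at this

theorem per (hB : ¬∃ x g h, Bad φ B L x g h) (hx : ok φ B x) (hd : 0 < d) (cy : W L x i x (i + d))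
    (e : i + d + L ≤ x.n) : (∀ k < i, W (L + 1) x k x (k + d)) ∨
      ∀ k, i ≤ k → k + d + L + 1 ≤ x.n → W (L + 1) x k x (k + d) := by
  have o : occ (sub x i (d + L)) x i := occ_sub (by omega)
  have ow : ∀ a < d, W (L + 1) (sub x i (d + L)) a x (i + a) := fun a ha => o.W (by simp; omega)
  by_cases h1 : ∀ k, k + L + 1 ≤ x.n → ∀ a < d, W L x (k + 1) x (i + a + 1) → W (L + 1) x k x (i + a)
  · have : ∀ t k, k + t = i → 0 < t → W (L + 1) x k x (k + d) ∧ ∃ a < d, W (L + 1) x k x (i + a) := by
      intro t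
      induction t using Nat.strong_induction_on with
      | _ t ih =>
        intro k e' ht
        have p : W L x (k + 1) x (k + d + 1) := by
          rw [Nat.add_right_comm]
          by_cases g : t = 1
          · rwa [show k + 1 = i by omega]
          · exact (ih (t - 1) (by omega) (k + 1) (by omega) (by omega)).1.pre
        obtain ⟨a, ha, q⟩ : ∃ a < d, W (L + 1) x (k + d) x (i + a) := by
          by_cases g : i ≤ k + d
          · exact ⟨k + d - i, by omega, by rw [show i + (k + d - i) = k + d by omega]; exact .refl⟩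
          · exact (ih (t - d) (by omega) (k + d) (by omega) (by omega)).2
        have r := h1 k (by omega) a ha (p.trans q.suf)
        exact ⟨r.trans q.symm, a, ha, r⟩
    exact Or.inl fun k hk => (this (i - k) k (by omega) (by omega)).1
  by_cases h2 : ∀ k, k + L + 1 ≤ x.n → ∀ b < d, W L x k x (i + b) → W (L + 1) x k x (i + b)
  · have : ∀ k, i ≤ k → k + d + L + 1 ≤ x.n →
        W (L + 1) x k x (k + d) ∧ ∃ b < d, W (L + 1) x (k + d) x (i + b) := by
      intro k
      induction k using Nat.strong_induction_on with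
      | _ k ih =>
        intro e' ht
        have p : W L x k x (k + d) := by
          by_cases g : k = i
          · rwa [g]
          · have := (ih (k - 1) (by omega) (by omega) (by omega)).1.suf
            rwa [show k - 1 + 1 = k by omega, show k - 1 + d + 1 = k + d by omega] at this
        obtain ⟨b, hb, q⟩ : ∃ b < d, W (L + 1) x k x (i + b) := by
          by_cases g : k < i + d
          · exact ⟨k - i, by omega, by rw [show i + (k - i) = k by omega]; exact .refl⟩
          · have := (ih (k - d) (by omega) (by omega) (by omega)).2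
            rwa [show k - d + d = k by omega] at this
        have r := h2 (k + d) (by omega) b hb (p.symm.trans q.pre)
        exact ⟨q.trans r.symm, b, hb, r⟩
    exact Or.inr fun k a b => (this k a b).1
  simp only [not_forall] at h1 h2
  obtain ⟨k, k1, a, ha, a1, a2⟩ := h1
  obtain ⟨k', k2, b, hb, b1, b2⟩ := h2
  have s := sub_W (x := x) (i := k) (k := L + 1) (by omega)
  have s' := sub_W (x := x) (i := k') (k := L + 1) (by omega)
  exact (hB ⟨_, sub x k (L + 1), sub x k' (L + 1), hx.of_occ o (by simp; omega),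
    hx.of_occ (occ_sub (by omega)) (by simp), hx.of_occ (occ_sub (by omega)) (by simp), rfl, rfl, d,
    by simp, rfl, ((o.W (d := 0) (by simp)).trans cy).trans (o.W (by simp)).symm,
    ⟨a, ha, (s.suf.trans a1).trans (ow a ha).suf.symm, fun g => a2 ((s.symm.trans g).trans (ow a ha))⟩,
    b, hb, (s'.pre.trans b1).trans (ow b hb).pre.symm,
    fun g => b2 ((s'.symm.trans g).trans (ow b hb))⟩).elim

theorem split (hB : ¬∃ x g h, Bad φ B L x g h) (hx : ok φ B x) : ∃ s ≤ x.n,
    (∀ k, k + (C L).factorial + C L + 1 ≤ s → W (L + 1) x k x (k + (C L).factorial)) ∧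
    ∀ k, s ≤ k → k + (C L).factorial + L + 1 ≤ x.n → W (L + 1) x k x (k + (C L).factorial) := by
  classical
  have ex : ∃ s, ∀ k, s ≤ k → k + (C L).factorial + L + 1 ≤ x.n →
      W (L + 1) x k x (k + (C L).factorial) := ⟨x.n, fun k a b => by omega⟩
  refine ⟨Nat.find ex, Nat.find_min' ex fun k a b => by omega, fun k hk => ?_, Nat.find_spec ex⟩
  have h1 := Nat.find_min ex (m := Nat.find ex - 1) (by omega)
  simp only [not_forall] at h1
  obtain ⟨r, r1, r2, r3⟩ := h1
  have : r = Nat.find ex - 1 := by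
    by_contra g
    exact r3 (Nat.find_spec ex r (by omega) r2)
  obtain ⟨p, q, p0, p1, p2, p3, -⟩ := pig L x x 0 0 (r - C L)
  obtain ⟨d, rfl⟩ := Nat.exists_eq_add_of_le p1.le
  obtain ⟨c, hc⟩ : d ∣ (C L).factorial := Nat.dvd_factorial (by omega) (by omega)
  rcases per hB hx (by omega) p3.W (by omega) with h | h
  · have : ∀ c k, k + d * c ≤ p → W (L + 1) x k x (k + d * c) := by
      intro c
      induction c with
      | zero => exact fun _ _ => .refl
      | succ c ih =>
        intro k g
        rw [Nat.mul_succ, ← add_assoc] at g ⊢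
        exact (ih k (by omega)).trans (h _ (by omega))
    rw [hc]
    exact this c k (by omega)
  · have : ∀ c k, p ≤ k → k + d * c + L + 1 ≤ x.n → W (L + 1) x k x (k + d * c) := by
      intro c
      induction c with
      | zero => exact fun _ _ _ => .refl
      | succ c ih =>
        intro k g g'
        rw [Nat.mul_succ, ← add_assoc] at g' ⊢
        exact (ih k g (by omega)).trans (h _ (by omega) g')
    rw [hc] at r2 r3
    exact (r3 (this c r (by omega) r2)).elim

theorem fin_le (b : ℕ) : {x : Pc | x.n ≤ b}.Finite :=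
  ((List.finite_toSet (codes b)).image P).subset fun x hx => exists_code x hx

theorem good (hA : ¬∃ y z, Amb φ B y z ∧ L < y.n) (hB : ¬∃ x g h, Bad φ B L x g h) :
    NoAC φ B := by
  intro f h1 h2
  choose s s1 s2 s3 using fun i => split hB (h1 i)
  have D0 := (C L).factorial_pos
  generalize (C L).factorial = D at *
  generalize C L = c at *
  obtain ⟨g, hg⟩ := (wellQuasiOrdered_le (α := ℕ × ℕ)).exists_monotone_subseq
    fun i => (s (i + L + 1), (f (i + L + 1)).n - s (i + L + 1))
  obtain ⟨i, j, ij, e⟩ := Set.Finite.exists_lt_map_eq_of_forall_mem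
    (f := fun i => (min (s (g i + L + 1)) (D + c + L + 1), sub (f (g i + L + 1))
      (s (g i + L + 1) - min (s (g i + L + 1)) (D + c + L + 1))
      (min (s (g i + L + 1)) (D + c + L + 1) +
        min ((f (g i + L + 1)).n - s (g i + L + 1)) (D + c + L + 1))))
    (t := Set.Iic (D + c + L + 1) ×ˢ {x : Pc | x.n ≤ 2 * (D + c + L + 1)})
    (fun i => ⟨by simp, by simp only [Set.mem_setOf_eq, sub_n]; omega⟩)
    ((Set.finite_Iic _).prod (fin_le _))
  refine ⟨g i + L + 1, g j + L + 1, by have := g.strictMono ij; omega, ?_⟩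
  have m1 := (hg i j ij.le).1
  have m2 := (hg i j ij.le).2
  have n1 : g i + L + 1 ≤ (f (g i + L + 1)).n := h2.le_apply
  simp only [Prod.mk.injEq] at e m1 m2
  have a1 := s1 (g i + L + 1)
  have a2 := s2 (g i + L + 1)
  have a3 := s3 (g i + L + 1)
  have b1 := s1 (g j + L + 1)
  have b2 := s2 (g j + L + 1)
  have b3 := s3 (g j + L + 1)
  have hx := h1 (g i + L + 1)
  have hy := h1 (g j + L + 1)
  generalize f (g i + L + 1) = x, f (g j + L + 1) = y, s (g i + L + 1) = s,
    s (g j + L + 1) = t at *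
  obtain ⟨δ, rfl⟩ := Nat.exists_eq_add_of_le m1
  obtain ⟨e1, e2⟩ := e
  have e3 := congrArg Pc.n e2
  simp only [sub_n] at e3
  have core := W.of_occ (occ_sub (by omega)) (e2 ▸ occ_sub (z := y) (by omega))
  rw [sub_n] at core
  have k1 : ∀ k, s ≤ k + D + c + L → k + L + 1 ≤ x.n → W (L + 1) x k y (k + δ) := by
    intro k
    induction k using Nat.strong_induction_on with
    | _ k ih =>
      intro p q
      by_cases r : k < s + D
      · have := core.part (d := k - (s - min s (D + c + L + 1))) (k := L + 1) (by omega)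
        rwa [show _ + (k - _) = k by omega, show _ + (k - _) = k + δ by omega] at this
      obtain ⟨k, rfl⟩ := Nat.exists_eq_add_of_le' (show D ≤ k by omega)
      rw [Nat.add_right_comm]
      exact ((a3 k (by omega) q).symm.trans (ih k (by omega) (by omega) (by omega))).trans
        (b3 _ (by omega) (by omega))
  have k2 : ∀ r k, s ≤ k + r → k + L + 1 ≤ x.n → W (L + 1) x k y (k + δ) := by
    intro r
    induction r using Nat.strong_induction_on with
    | _ r ih =>
      intro k p q
      by_cases u : s ≤ k + D + c + L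
      · exact k1 k u q
      have := ih (r - D) (by omega) (k + D) (by omega) (by omega)
      rw [Nat.add_right_comm] at this
      exact ((a2 k (by omega)).trans this).trans (b2 _ (by omega)).symm
  have o : occ (sub y δ x.n) y δ := occ_sub (by omega)
  refine ⟨δ, (rigid hA x.n x (sub y δ x.n) rfl rfl hx (hy.of_occ o hx.1)
    fun a ha b hb p q => ?_).symm ▸ o⟩
  obtain ⟨k, u1, u2, u3, u4, u5⟩ :
      ∃ k, k ≤ a ∧ k ≤ b ∧ a ≤ k + L ∧ b ≤ k + L ∧ k + L + 1 ≤ x.n :=
    ⟨min (min a b) (x.n - L - 1), by omega, by omega, by omega, by omega, by omega⟩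
  have := k2 s k (by omega) u5 (a - k) (by omega) (b - k) (by omega)
  rw [o.2 a ha b hb]
  rwa [show k + (a - k) = a by omega, show k + (b - k) = b by omega,
    show k + δ + (a - k) = δ + a by omega, show k + δ + (b - k) = δ + b by omega] at this

def Wb (φ : Loc) (B : Set Pc) (m : ℕ) : Prop :=
  (¬∃ y : Pc, y.n ≤ 2 * N m ∧ ∃ z : Pc, z.n ≤ 2 * N m ∧ Amb φ B y z ∧ N m < y.n) ∧
    ¬∃ g : Pc, g.n ≤ N m + 1 ∧ ∃ h : Pc, h.n ≤ N m + 1 ∧
      ∃ x : Pc, x.n ≤ 3 * N (N m) ∧ Bad φ B (N m) x g h

theorem noAC_iff (hφ : Amal φ) (hm : 0 < m) (hB : ∀ b ∈ B, b.n ≤ m) : NoAC φ B ↔ Wb φ B m := by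
  have e : N m = 2 * m + C m := rfl
  have hB' : ∀ b ∈ B, b.n ≤ N m := fun b hb => (hB b hb).trans (by omega)
  exact ⟨fun h => ⟨fun ⟨_, _, _, _, a, b⟩ => a.not hφ hm hB b h,
    fun ⟨_, _, _, _, _, _, a⟩ => a.not hφ hB' h⟩, fun h => good
      (fun ⟨y, z, a, b⟩ => h.1 (Amb.bdd hφ hm hB _ y z a rfl b)) fun ⟨x, g, k, a⟩ =>
        h.2 ⟨g, a.2.2.2.1.le, k, a.2.2.2.2.1.le, Bad.bdd hφ (by omega) hB' _ x rfl a⟩⟩

theorem noAC_anti : NoAC φ B ↔ ∀ S : Set Pc, (∀ x ∈ S, ok φ B x) →
    (∀ x ∈ S, ∀ y ∈ S, Le' x y → x = y) → S.Finite := by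
  refine ⟨fun h S h1 h2 => ?_, fun h f h1 h2 => ?_⟩
  · by_contra hS
    have : ∀ x : S, ∃ y : S, x.1.n < y.1.n := fun x => by
      by_contra g
      exact hS ((fin_le x.1.n).subset fun y hy => not_lt.1 fun k => g ⟨⟨y, hy⟩, k⟩)
    choose nx hnx using this
    obtain ⟨x, hx⟩ := Set.Infinite.nonempty hS
    have mono : StrictMono fun i => (nx^[i] ⟨x, hx⟩).1.n := strictMono_nat_of_lt_succ fun i => by
      simp only [Function.iterate_succ_apply']
      exact hnx _
    obtain ⟨i, j, ij, o⟩ := h (fun i => (nx^[i] ⟨x, hx⟩).1) (fun i => h1 _ (nx^[i] _).2) mono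
    exact (mono ij).ne (congrArg Pc.n (h2 _ (nx^[i] _).2 _ (nx^[j] _).2 o))
  · by_contra g
    refine Set.infinite_range_of_injective (f := f) (fun i j e => h2.injective (congrArg Pc.n e))
      (h _ (by rintro _ ⟨i, rfl⟩; exact h1 i) ?_)
    rintro _ ⟨i, rfl⟩ _ ⟨j, rfl⟩ ⟨k, o⟩
    rcases lt_trichotomy i j with e | rfl | e
    · exact (g ⟨i, j, e, k, o⟩).elim
    · rfl
    · have := h2 e
      have := o.1
      simp only at *
      omega

end Pool.Agent.H.MP_7b05dd_co
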