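import Pool.Agent.H.MP_7b05dd_co.D

/-! Amalgamation for digraphs, tournaments and partial orders. -/

namespace Pool.Agent.H.MP_7b05dd_co

def φD : Loc := fun _ aa _ _ _ _ => ¬aa
def φT : Loc := fun e aa ab ba _ _ => ¬aa ∧ (¬e → (ab ↔ ¬ba))
def φP : Loc := fun e aa ab ba bc ac => aa ∧ (ab → ba → e) ∧ (ab → bc → ac)

variable {A : ℕ → Prop} {R : ℕ → ℕ → Prop}

theorem KD : K φD A R ↔ ∀ a, A a → ¬R a a :=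
  ⟨fun h a ha => h a ha a ha a ha, fun h a ha _ _ _ _ => h a ha⟩

theorem KT : K φT A R ↔ (∀ a, A a → ¬R a a) ∧ ∀ a, A a → ∀ b, A b → a ≠ b → (R a b ↔ ¬R b a) :=
  ⟨fun h => ⟨fun a ha => (h a ha a ha a ha).1, fun a ha b hb => (h a ha b hb a ha).2⟩,
    fun h a ha b hb _ _ => ⟨h.1 a ha, h.2 a ha b hb⟩⟩

theorem KP : K φP A R ↔ (∀ a, A a → R a a) ∧ (∀ a, A a → ∀ b, A b → R a b → R b a → a = b) ∧
    ∀ a, A a → ∀ b, A b → ∀ c, A c → R a b → R b c → R a c :=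
  ⟨fun h => ⟨fun a ha => (h a ha a ha a ha).1, fun a ha b hb => (h a ha b hb a ha).2.1,
    fun a ha b hb c hc => (h a ha b hb c hc).2.2⟩,
    fun h a ha b hb c hc => ⟨h.1 a ha, h.2.1 a ha b hb, h.2.2 a ha b hb c hc⟩⟩

theorem amalD : Amal φD := by
  intro A A' R R' h h' e
  rw [KD] at h h'
  refine ⟨fun a b => (A a ∧ A b ∧ R a b) ∨ (A' a ∧ A' b ∧ R' a b), KD.2 ?_, ?_, ?_⟩ <;> grind

theorem amalT : Amal φT := by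
  intro A A' R R' h h' e
  rw [KT] at h h'
  refine ⟨fun a b => (A a ∧ A b ∧ R a b) ∨ (A' a ∧ A' b ∧ R' a b) ∨ (¬A' a ∧ ¬A b),
    KT.2 ⟨?_, ?_⟩, ?_, ?_⟩ <;> grind

theorem amalP : Amal φP := by
  intro A A' R R' h h' e
  rw [KP] at h h'
  obtain ⟨r1, a1, t1⟩ := h
  obtain ⟨r2, a2, t2⟩ := h'
  let S : ℕ → ℕ → Prop := fun a b => (A a ∧ A b ∧ R a b) ∨ (A' a ∧ A' b ∧ R' a b) ∨
    (∃ c, A c ∧ A' c ∧ A a ∧ A' b ∧ R a c ∧ R' c b) ∨ ∃ c, A c ∧ A' c ∧ A' a ∧ A b ∧ R' a c ∧ R c b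
  have s1 : ∀ a b, A a → A b → (S a b ↔ R a b) := by
    refine fun a b ha hb => ⟨?_, fun g => Or.inl ⟨ha, hb, g⟩⟩
    rintro (g | g | ⟨c, g⟩ | ⟨c, g⟩) <;> grind
  have s2 : ∀ a b, A' a → A' b → (S a b ↔ R' a b) := by
    refine fun a b ha hb => ⟨?_, fun g => Or.inr (Or.inl ⟨ha, hb, g⟩)⟩
    rintro (g | g | ⟨c, g⟩ | ⟨c, g⟩) <;> grind
  have l1 : ∀ a b c, A a → A b → R a b → S b c → S a c := by
    rintro a b c ha hb h (g | g | ⟨d, g⟩ | ⟨d, g⟩)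
    · exact Or.inl ⟨ha, g.2.1, t1 a ha b hb c g.2.1 h g.2.2⟩
    · exact Or.inr (Or.inr (Or.inl ⟨b, hb, g.1, ha, g.2.1, h, g.2.2⟩))
    · exact Or.inr (Or.inr (Or.inl ⟨d, g.1, g.2.1, ha, g.2.2.2.1,
        t1 a ha b hb d g.1 h g.2.2.2.2.1, g.2.2.2.2.2⟩))
    · exact Or.inl (by grind)
  have l2 : ∀ a b c, A' a → A' b → R' a b → S b c → S a c := by
    rintro a b c ha hb h (g | g | ⟨d, g⟩ | ⟨d, g⟩)
    · exact Or.inr (Or.inr (Or.inr ⟨b, g.1, hb, ha, g.2.1, h, g.2.2⟩))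
    · exact Or.inr (Or.inl ⟨ha, g.2.1, t2 a ha b hb c g.2.1 h g.2.2⟩)
    · exact Or.inr (Or.inl (by grind))
    · exact Or.inr (Or.inr (Or.inr ⟨d, g.1, g.2.1, ha, g.2.2.2.1,
        t2 a ha b hb d g.2.1 h g.2.2.2.2.1, g.2.2.2.2.2⟩))
  have tr : ∀ a b c, S a b → S b c → S a c := by
    rintro a b c (g | g | ⟨d, g1, g2, g3, g4, g5, g6⟩ | ⟨d, g1, g2, g3, g4, g5, g6⟩) k
    exacts [l1 a b c g.1 g.2.1 g.2.2 k, l2 a b c g.1 g.2.1 g.2.2 k,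
      l1 a d c g3 g1 g5 (l2 d b c g2 g4 g6 k), l2 a d c g3 g2 g5 (l1 d b c g1 g4 g6 k)]
  refine ⟨S, KP.2 ⟨?_, ?_, fun a _ b _ c _ => tr a b c⟩, s1, s2⟩
  · rintro a (g | g)
    exacts [Or.inl ⟨g, g, r1 a g⟩, Or.inr (Or.inl ⟨g, g, r2 a g⟩)]
  · rintro a - b - (g | g | ⟨d, g1, g2, g3, g4, g5, g6⟩ | ⟨d, g1, g2, g3, g4, g5, g6⟩) k
    · exact a1 a g.1 b g.2.1 g.2.2 ((s1 _ _ g.2.1 g.1).1 k)
    · exact a2 a g.1 b g.2.1 g.2.2 ((s2 _ _ g.2.1 g.1).1 k)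
    · obtain rfl := a1 a g3 d g1 g5 ((s1 _ _ g1 g3).1 (l2 d b a g2 g4 g6 k))
      exact a2 a g2 b g4 g6 ((s2 _ _ g4 g2).1 k)
    · obtain rfl := a2 a g3 d g2 g5 ((s2 _ _ g2 g3).1 (l1 d b a g1 g4 g6 k))
      exact a1 a g1 b g4 g6 ((s1 _ _ g4 g1).1 k)

end Pool.Agent.H.MP_7b05dd_co
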